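import Pool.Agent.R551.IG.Tree

/-!
# Greedy maximum-independent-set colouring of interference graphs uses at most `12 χ` colours

The definitions used in the statement:

* `Pool/Agent/R551/IG/Tree.lean`: `Requests V R` is a family of requests, indexed by `R`, given by
  their first and last vertices (in a tree a directed path is determined by these); `Interferes`
  and `interferenceGraph` are as in the problem (`Walk.snd` and `Walk.penultimate` are the second
  and the last but one vertex of a path);
* `Pool/Agent/R551/IG/Abs.lean`: `GreedyRun G U k` says that some run of greedy
  maximum-independent-set colouring on the subgraph of `G` induced by `U` uses `k` colours.

Idea of the proof. Root the tree. Every request goes up, or goes down, or turns. An independent set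
contains at most two requests that turn, and it does not contain two requests that go up together
with two that go down. So a colour class with at least seven members consists, up to three
members, of requests that go up (or go down). The rounds in which all members go up take away maximum
antichains of a forest order, and the last of them contains the top of a chain with one element
from each, which is a clique; so there are at most `χ` of them. In the other rounds of this kind, let
`q` be a member that does not go up. Its last arc lies above all members that go up. As these
members are nearly a maximum independent set, the last arcs of the requests `q` of different rounds are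
comparable; so those which go down form a clique, and those which turn form a clique. Finally, at
most `6 χ` rounds have colour classes with at most six members.
-/

set_option autoImplicit false

namespace Pool.Agent.Results.MP_9b45c5_lc.GreedyConstantFactor

open Pool.Agent.R551.IG

/-- For every finite family of requests in a bidirected tree, every run of greedy
maximum-independent-set colouring on the interference graph `G` uses at most `12 χ(G)` colours. -/
theorem result (V R : Type) [Fintype V] [Fintype R] [DecidableEq R] (T : SimpleGraph V)
    (hT : T.IsTree) (Q : Requests V R) (k : ℕ)
    (hrun : GreedyRun (interferenceGraph T Q) Finset.univ k) :
    (k : ℕ∞) ≤ 12 * (interferenceGraph T Q).chromaticNumber := by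
  obtain ⟨ρ⟩ := hT.connected.nonempty
  obtain ⟨e, f, S⟩ := exists_sys hT Q ρ
  obtain ⟨I, F, _, hR⟩ := exists_rounds hrun
  have hfin : (interferenceGraph T Q).chromaticNumber ≠ ⊤ :=
    SimpleGraph.chromaticNumber_ne_top_iff_exists.2 ⟨_, SimpleGraph.colorable_of_fintype _⟩
  obtain ⟨c, hc⟩ := ENat.ne_top_iff_exists.1 hfin
  obtain ⟨κ⟩ := SimpleGraph.chromaticNumber_le_iff_colorable.1 hc.symm.le
  have h := rounds_le S hR κ
  rw [← hc]
  exact_mod_cast h

end Pool.Agent.Results.MP_9b45c5_lc.GreedyConstantFactor
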